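import Pool.Agent.Run7.h987.RT.Iface

/-!
# Project RT (helper987): the piece COV
-/

set_option autoImplicit false

open MeasureTheory Set SchwartzMap
open scoped FourierTransform SchwartzMap ContDiff Pointwise Topology ENNReal NNReal

noncomputable section

namespace Pool.Agent.Run7.h957.RT

open Pool.Agent.Run7.h987.BL Pool.Agent.Run7.h987.RT

/-- the affine subspace `p + W` -/
def aff {l : ℕ} (p : E l) (W : Submodule ℝ (E l)) : Set (E l) := {x | x - p ∈ W}

/-- the hyperplane `x_c = a` -/
def hyp {l : ℕ} (c : Fin l) (a : ℝ) : Set (E l) := {x | x c = a}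

/-- the submodule `x_c = 0` of `W` -/
def sub0 {l : ℕ} (c : Fin l) (W : Submodule ℝ (E l)) : Submodule ℝ (E l) :=
  W ⊓ LinearMap.ker (EuclideanSpace.proj (𝕜 := ℝ) c : E l →L[ℝ] ℝ).toLinearMap

lemma mem_sub0 {l : ℕ} (c : Fin l) (W : Submodule ℝ (E l)) (x : E l) :
    x ∈ sub0 c W ↔ x ∈ W ∧ x c = 0 := by
  unfold sub0
  rw [Submodule.mem_inf, LinearMap.mem_ker]
  rfl

lemma isClosed_hyp {l : ℕ} (c : Fin l) (a : ℝ) : IsClosed (hyp c a) := by
  unfold hyp
  exact isClosed_eq (by fun_prop) continuous_const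

/-- the open grid cell -/
def cell {l : ℕ} (g h : ℝ) (z : Fin l → ℤ) : Set (E l) :=
  {x | ∀ c, g + h * z c < x c ∧ x c < g + h * (z c + 1)}

lemma isOpen_cell {l : ℕ} (g h : ℝ) (z : Fin l → ℤ) : IsOpen (cell g h z) := by
  have : cell g h z = ⋂ c, {x : E l | g + h * z c < x c ∧ x c < g + h * (z c + 1)} := by
    ext x
    simp [cell]
  rw [this]
  refine isOpen_iInter_of_finite fun c => ?_
  have hc : Continuous fun x : E l => x c := by fun_prop
  exact (isOpen_lt continuous_const hc).inter (isOpen_lt hc continuous_const)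

lemma dist_cell {l : ℕ} {g h δ : ℝ} (h0 : 0 < h) (hδ : h * (l + 1) = δ) (z : Fin l → ℤ)
    {x y : E l} (hx : x ∈ cell g h z) (hy : y ∈ cell g h z) : dist x y < δ := by
  have hδ0 : 0 < δ := by rw [← hδ]; positivity
  rw [EuclideanSpace.dist_eq, Real.sqrt_lt' hδ0]
  have h1 : ∀ c ∈ Finset.univ, dist (x c) (y c) ^ 2 ≤ h ^ 2 := by
    intro c _
    have hx1 := hx c
    have hy1 := hy c
    rw [Real.dist_eq, sq_abs]
    have h2 : |x c - y c| ≤ h := by
      rw [abs_le]
      constructor <;> nlinarith [hx1.1, hx1.2, hy1.1, hy1.2]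
    calc (x c - y c) ^ 2 = |x c - y c| ^ 2 := (sq_abs _).symm
      _ ≤ h ^ 2 := pow_le_pow_left₀ (abs_nonneg _) h2 2
  have h2 := Finset.sum_le_card_nsmul _ _ _ h1
  rw [Finset.card_univ, Fintype.card_fin, nsmul_eq_mul] at h2
  refine h2.trans_lt ?_
  rw [← hδ]
  have hl : (0 : ℝ) ≤ l := Nat.cast_nonneg l
  nlinarith [pow_pos h0 2, mul_nonneg hl (pow_pos h0 2).le,
    mul_nonneg (mul_nonneg hl hl) (pow_pos h0 2).le]

lemma disjoint_cell {l : ℕ} {g h : ℝ} (h0 : 0 < h) {z z' : Fin l → ℤ} (hz : z ≠ z') :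
    Disjoint (cell g h z) (cell (l := l) g h z') := by
  rw [Set.disjoint_left]
  intro x hx hx'
  refine hz (funext fun c => ?_)
  have h1 := hx c
  have h2 := hx' c
  have h3 : h * z c < h * (z' c + 1) := by linarith [h1.1, h2.2]
  have h4 : h * z' c < h * (z c + 1) := by linarith [h2.1, h1.2]
  have h5 : (z c : ℝ) < z' c + 1 := lt_of_mul_lt_mul_left h3 h0.le
  have h6 : (z' c : ℝ) < z c + 1 := lt_of_mul_lt_mul_left h4 h0.le
  have h7 : z c < z' c + 1 := by exact_mod_cast h5
  have h8 : z' c < z c + 1 := by exact_mod_cast h6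
  omega

/-- the coloured fine covers -/
def HasCov (l : ℕ) (δ : ℝ) (n : ℕ) (C : Set (E l)) : Prop :=
  ∃ (ι : Type) (_ : Fintype ι) (V : ι → Set (E l)) (col : ι → ℕ), (∀ i, IsOpen (V i)) ∧
    C ⊆ ⋃ i, V i ∧ (∀ i, ∀ x ∈ V i, ∀ y ∈ V i, dist x y < δ) ∧ (∀ i, col i < n) ∧
    ∀ i j, i ≠ j → col i = col j → Disjoint (V i) (V j)

theorem hasCov (l : ℕ) (δ : ℝ) (hδ : 0 < δ) : ∀ (n : ℕ) (ι : Type) [Fintype ι] (p : ι → E l)
    (W : ι → Submodule ℝ (E l)), (∀ i, Module.finrank ℝ (W i) < n) →
    ∀ C : Set (E l), IsCompact C → C ⊆ ⋃ i, aff (p i) (W i) → HasCov l δ n C := by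
  intro n
  induction n with
  | zero =>
    intro ι _ p W hW C _ hCs
    refine ⟨Fin 0, inferInstance, fun _ => ∅, fun _ => 0, fun i => i.elim0, ?_,
      fun i => i.elim0, fun i => i.elim0, fun i => i.elim0⟩
    intro x hx
    obtain ⟨i, _⟩ := mem_iUnion.1 (hCs hx)
    exact absurd (hW i) (Nat.not_lt_zero _)
  | succ n ih =>
    intro ι _ p W hW C hC hCs
    classical
    set h : ℝ := δ / (l + 1) with hh
    have h0 : 0 < h := by positivity
    have hhδ : h * (l + 1) = δ := by
      rw [hh]
      field_simp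
    -- the shift
    have hcnt : (Set.range fun t : ι × Fin l × ℤ => p t.1 t.2.1 - h * t.2.2).Countable :=
      Set.countable_range _
    obtain ⟨g, hg⟩ := (hcnt.dense_compl ℝ).nonempty
    have hg' : ∀ (i : ι) (c : Fin l) (m : ℤ), p i c ≠ g + h * m := by
      intro i c m heq
      refine hg ⟨(i, c, m), ?_⟩
      simp only
      linarith
    -- the bound
    obtain ⟨R, hR⟩ := hC.isBounded.exists_norm_le
    have hRc : ∀ x ∈ C, ∀ c : Fin l, |x c| ≤ R := by
      intro x hx c
      refine le_trans ?_ (hR x hx)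
      have := EuclideanSpace.norm_eq x
      have h1 := PiLp.norm_apply_le x c
      rwa [Real.norm_eq_abs] at h1
    obtain ⟨M, hM⟩ := exists_nat_ge ((R + |g|) / h + 1)
    have hMz : ∀ x ∈ C, ∀ c : Fin l, |(x c - g) / h| ≤ (M : ℝ) - 1 := by
      intro x hx c
      rw [abs_div, abs_of_pos h0]
      have h1 : |x c - g| ≤ R + |g| := (abs_sub _ _).trans (by linarith [hRc x hx c])
      have h2 : |x c - g| / h ≤ (R + |g|) / h := by gcongr
      linarith
    set I : Finset ℤ := Finset.Icc (-(M : ℤ)) M with hI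
    set G : Set (E l) := ⋃ t : Fin l × I, hyp t.1 (g + h * (t.2 : ℤ)) with hG
    have hGc : IsClosed G := isClosed_iUnion_of_finite fun t => isClosed_hyp _ _
    -- the new family
    set κ : Type := {t : ι × Fin l × I // (aff (p t.1) (W t.1) ∩
      hyp t.2.1 (g + h * ((t.2.2 : ℤ) : ℝ))).Nonempty} with hκ
    have hκf : Fintype κ := Subtype.fintype _
    have hlow : HasCov l δ n (C ∩ G) := by
      refine ih κ (fun t => t.2.choose) (fun t => sub0 t.1.2.1 (W t.1.1)) ?_ (C ∩ G)
        (hC.inter_right hGc) ?_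
      · rintro ⟨⟨i, c, m⟩, ht⟩
        have h1 : sub0 c (W i) < W i := by
          refine lt_of_le_of_ne inf_le_left ?_
          intro heq
          obtain ⟨x, hx1, hx2⟩ := ht
          have h2 : x - p i ∈ sub0 c (W i) := by
            rw [heq]
            exact hx1
          rw [mem_sub0] at h2
          have h3 : x c - p i c = 0 := h2.2
          have h4 : x c = g + h * ((m : ℤ) : ℝ) := hx2
          exact hg' i c m (by linarith)
        have h2 := Submodule.finrank_lt_finrank_of_lt h1
        have h3 := hW i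
        show Module.finrank ℝ (sub0 c (W i)) < n
        omega
      · rintro x ⟨hxC, hxG⟩
        obtain ⟨i, hi⟩ := mem_iUnion.1 (hCs hxC)
        obtain ⟨⟨c, m⟩, hm⟩ := mem_iUnion.1 hxG
        have hne : (aff (p i) (W i) ∩ hyp c (g + h * ((m : ℤ) : ℝ))).Nonempty := ⟨x, hi, hm⟩
        refine mem_iUnion.2 ⟨⟨(i, c, m), hne⟩, ?_⟩
        have hs := hne.choose_spec
        show x - hne.choose ∈ sub0 c (W i)
        rw [mem_sub0]
        constructor
        · have : x - hne.choose = (x - p i) - (hne.choose - p i) := by abel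
          rw [this]
          exact Submodule.sub_mem _ hi hs.1
        · have h1 : x c = g + h * ((m : ℤ) : ℝ) := hm
          have h2 : hne.choose c = g + h * ((m : ℤ) : ℝ) := hs.2
          show x c - hne.choose c = 0
          rw [h1, h2, sub_self]
    obtain ⟨ι', hι', V, col, hV1, hV2, hV3, hV4, hV5⟩ := hlow
    set Z : Finset (Fin l → ℤ) := Finset.Icc (fun _ => -(M : ℤ)) (fun _ => (M : ℤ)) with hZ
    refine ⟨ι' ⊕ Z, inferInstance, Sum.elim V (fun z => cell g h z), Sum.elim col (fun _ => n),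
      ?_, ?_, ?_, ?_, ?_⟩
    · rintro (i | z)
      · exact hV1 i
      · exact isOpen_cell _ _ _
    · intro x hx
      by_cases hxG : x ∈ G
      · obtain ⟨i, hi⟩ := mem_iUnion.1 (hV2 ⟨hx, hxG⟩)
        exact mem_iUnion.2 ⟨Sum.inl i, hi⟩
      · set z : Fin l → ℤ := fun c => ⌊(x c - g) / h⌋ with hz
        have hzb : ∀ c, -(M : ℤ) ≤ z c ∧ z c ≤ M := by
          intro c
          have h1 := abs_le.1 (hMz x hx c)
          have h2 := Int.floor_le ((x c - g) / h)
          have h3 := Int.lt_floor_add_one ((x c - g) / h)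
          constructor
          · have : (-(M : ℤ) : ℝ) < ((z c : ℤ) : ℝ) + 1 := by
              push_cast
              rw [hz]
              linarith
            have h4 : -(M : ℤ) < z c + 1 := by exact_mod_cast this
            omega
          · have : ((z c : ℤ) : ℝ) ≤ ((M : ℤ) : ℝ) := by
              push_cast
              rw [hz]
              linarith
            exact_mod_cast this
        have hzZ : z ∈ Z := by
          rw [hZ, Finset.mem_Icc]
          exact ⟨fun c => (hzb c).1, fun c => (hzb c).2⟩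
        refine mem_iUnion.2 ⟨Sum.inr ⟨z, hzZ⟩, ?_⟩
        intro c
        have h2 := Int.floor_le ((x c - g) / h)
        have h3 := Int.lt_floor_add_one ((x c - g) / h)
        rw [le_div_iff₀ h0] at h2
        rw [div_lt_iff₀ h0] at h3
        have hne : x c ≠ g + h * ((z c : ℤ) : ℝ) := by
          intro heq
          refine hxG (mem_iUnion.2 ⟨(c, ⟨z c, ?_⟩), heq⟩)
          rw [hI, Finset.mem_Icc]
          exact hzb c
        constructor
        · refine lt_of_le_of_ne ?_ hne.symm
          show g + h * ((⌊(x c - g) / h⌋ : ℤ) : ℝ) ≤ x c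
          linarith
        · show x c < g + h * (((⌊(x c - g) / h⌋ : ℤ) : ℝ) + 1)
          linarith
    · rintro (i | z) x hx y hy
      · exact hV3 i x hx y hy
      · exact dist_cell h0 hhδ _ hx hy
    · rintro (i | z)
      · exact (hV4 i).trans (Nat.lt_succ_self n)
      · exact Nat.lt_succ_self n
    · rintro (i | z) (j | z') hne hcol
      · exact hV5 i j (fun h => hne (by rw [h])) hcol
      · exact absurd hcol (hV4 i).ne
      · exact absurd hcol (hV4 j).ne'
      · refine disjoint_cell h0 ?_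
        intro heq
        exact hne (by rw [Subtype.ext heq])

theorem t_COV : P_COV := by
  classical
  intro l r P hPf hPc δ hδ
  have hcomp : IsCompact P.space := by
    unfold Geometry.SimplicialComplex.space
    refine hPf.isCompact_biUnion fun s _ => ?_
    exact s.finite_toSet.isCompact_convexHull ℝ
  have : Fintype P.faces := hPf.fintype
  have hfin : ∀ s ∈ P.faces, Module.finrank ℝ (vectorSpan ℝ (s : Set (E l))) < r + 1 := by
    intro s hs
    obtain ⟨n, hn⟩ : ∃ n, s.card = n + 1 :=
      Nat.exists_eq_succ_of_ne_zero (Finset.card_pos.2 (P.nonempty_of_mem_faces hs)).ne'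
    have h1 := finrank_vectorSpan_image_finset_le (k := ℝ) (fun x : E l => x) s hn
    have h2 := hPc s hs
    rw [Finset.image_id'] at h1
    omega
  obtain ⟨ι, hι, V, col, hV1, hV2, hV3, hV4, hV5⟩ := hasCov l δ hδ (r + 1) P.faces
    (fun s => (P.nonempty_of_mem_faces s.2).choose) (fun s => vectorSpan ℝ ((s : Finset (E l)) : Set (E l)))
    (fun s => hfin s s.2) P.space hcomp (by
      intro x hx
      obtain ⟨s, hs, hxs⟩ := Geometry.SimplicialComplex.mem_space_iff.1 hx
      refine mem_iUnion.2 ⟨⟨s, hs⟩, ?_⟩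
      have hp := (P.nonempty_of_mem_faces hs).choose_spec
      have h1 : x ∈ affineSpan ℝ (s : Set (E l)) := convexHull_subset_affineSpan _ hxs
      have h2 : (P.nonempty_of_mem_faces hs).choose ∈ affineSpan ℝ (s : Set (E l)) :=
        subset_affineSpan _ _ hp
      have h3 := AffineSubspace.vsub_mem_direction h1 h2
      rw [direction_affineSpan] at h3
      exact h3)
  have e := Fintype.equivFin ι
  refine ⟨Fintype.card ι, fun i => V (e.symm i), fun i => hV1 _, ?_, fun i => hV3 _, ?_⟩
  · intro x hx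
    obtain ⟨i, hi⟩ := mem_iUnion.1 (hV2 hx)
    refine mem_iUnion.2 ⟨e i, ?_⟩
    simpa using hi
  · intro x s hs
    have h1 : s.card ≤ (Finset.range (r + 1)).card := by
      refine Finset.card_le_card_of_injOn (fun i => col (e.symm i)) ?_ ?_
      · intro i _
        exact Finset.mem_coe.2 (Finset.mem_range.2 (hV4 _))
      · intro i hi j hj hij
        by_contra hne
        have h2 : e.symm i ≠ e.symm j := fun h => hne (e.symm.injective h)
        exact Set.disjoint_left.1 (hV5 _ _ h2 hij) (hs i hi) (hs j hj)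
    rwa [Finset.card_range] at h1

end Pool.Agent.Run7.h957.RT
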