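import Pool.Agent.Run7.h987.RT.Iface

/-!
# Project RT (helper987): the piece MDIM
-/

set_option autoImplicit false

open MeasureTheory Set SchwartzMap
open scoped FourierTransform SchwartzMap ContDiff Pointwise Topology ENNReal NNReal

noncomputable section

namespace Pool.Agent.Run7.h957.RT

open Pool.Agent.Run7.h987.BL Pool.Agent.Run7.h987.RT

universe u

theorem t_MDIM : P_MDIM.{u} := by
  intro k X _ _ _ r hk hr hm
  obtain ⟨v, hv1, hv2⟩ := ENNReal.lt_iff_exists_nnreal_btwn.1 hm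
  have hv3 : (v : ℝ) < (2 * r) ^ k := by
    rw [← ENNReal.ofReal_coe_nnreal, ENNReal.ofReal_lt_ofReal_iff (by positivity)] at hv2
    exact hv2
  obtain ⟨δ, hδ, hδ2⟩ := Metric.eventually_nhds_iff.1
    (((continuous_pow (M := ℝ) k).tendsto (2 * r)).eventually (lt_mem_nhds hv3))
  obtain ⟨q, hq1, hq2⟩ := exists_rat_btwn (show max 0 (2 * r - δ) < 2 * r from
    max_lt (by positivity) (by linarith))
  have hq0 : (0 : ℝ) < q := (le_max_left _ _).trans_lt hq1
  have hq0' : 0 < q := by exact_mod_cast hq0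
  have hqv : (v : ℝ) < (q : ℝ) ^ k := by
    refine hδ2 ?_
    rw [Real.dist_eq, abs_lt]
    have := (le_max_right 0 (2 * r - δ)).trans_lt hq1
    constructor <;> linarith
  have hnum : 0 < q.num := Rat.num_pos.2 hq0'
  have hB : ((q.num.toNat : ℕ) : ℝ) = (q : ℝ) * (q.den : ℝ) := by
    have h1 : ((q.num.toNat : ℕ) : ℤ) = q.num := Int.toNat_of_nonneg hnum.le
    have h2 : ((q.num.toNat : ℕ) : ℝ) = ((q.num : ℤ) : ℝ) := by
      exact_mod_cast congrArg (Int.cast : ℤ → ℝ) h1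
    rw [h2]
    have h3 := Rat.mul_den_eq_num q
    have h4 : ((q * (q.den : ℚ) : ℚ) : ℝ) = ((q.num : ℚ) : ℝ) := by rw [h3]
    push_cast at h4
    exact h4.symm
  have hden : (0 : ℝ) < (q.den : ℝ) := by exact_mod_cast q.pos
  refine ⟨q.den, q.num.toNat, q.pos, by omega, ?_, ?_⟩
  · rw [hB]
    exact mul_lt_mul_of_pos_right hq2 hden
  · intro ε hε
    have h1 : Filter.limsup (fun N : ℕ => (⨅ r : ℕ, ⨅ _ : WidimLE k X ε N r, (r : ℝ≥0∞)) /
        (N : ℝ≥0∞) ^ k) Filter.atTop < (v : ℝ≥0∞) := by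
      refine lt_of_le_of_lt ?_ hv1
      unfold mdim
      exact le_iSup₂ (f := fun (ε : ℝ) (_ : 0 < ε) => Filter.limsup
        (fun N : ℕ => (⨅ r : ℕ, ⨅ _ : WidimLE k X ε N r, (r : ℝ≥0∞)) / (N : ℝ≥0∞) ^ k)
        Filter.atTop) ε hε
    obtain ⟨N0, hN0⟩ := Filter.eventually_atTop.1 (Filter.eventually_lt_of_limsup_lt h1)
    obtain ⟨j1, hj1⟩ := exists_nat_ge (1 / ((q : ℝ) ^ k - v))
    set j := max (max N0 j1) 1 with hj
    have hjpos : 0 < j := by omega
    have hjN0 : N0 ≤ q.den * j := by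
      have : 1 * j ≤ q.den * j := Nat.mul_le_mul_right j q.pos
      omega
    have hlt := hN0 (q.den * j) hjN0
    have hNpos : 0 < q.den * j := Nat.mul_pos q.pos hjpos
    have hN0' : (((q.den * j : ℕ) : ℝ≥0∞)) ^ k ≠ 0 := by
      refine pow_ne_zero _ ?_
      exact_mod_cast hNpos.ne'
    have hNtop : (((q.den * j : ℕ) : ℝ≥0∞)) ^ k ≠ ⊤ :=
      ENNReal.pow_ne_top (ENNReal.natCast_ne_top _)
    rw [ENNReal.div_lt_iff (Or.inl hN0') (Or.inl hNtop)] at hlt
    simp only [iInf_lt_iff] at hlt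
    obtain ⟨m, hm1, hm2⟩ := hlt
    have hm3 : (m : ℝ) < v * ((q.den * j : ℕ) : ℝ) ^ k := by
      have : ((m : ℝ≥0)) < v * ((q.den * j : ℕ) : ℝ≥0) ^ k := by
        exact_mod_cast hm2
      exact_mod_cast this
    refine ⟨j, m, hjpos, hm1, ?_⟩
    have h2 : (((q.num.toNat * j : ℕ) : ℝ)) ^ k = (q : ℝ) ^ k * ((q.den * j : ℕ) : ℝ) ^ k := by
      push_cast
      rw [hB]
      ring
    have h3 : (1 : ℝ) ≤ ((q : ℝ) ^ k - v) * ((q.den * j : ℕ) : ℝ) ^ k := by
      have hpos : (0 : ℝ) < (q : ℝ) ^ k - v := by linarith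
      have h4 : (j1 : ℝ) ≤ ((q.den * j : ℕ) : ℝ) ^ k := by
        have h5 : j1 ≤ (q.den * j) ^ k := by
          have h6 : q.den * j ≤ (q.den * j) ^ k := Nat.le_self_pow hk.ne' _
          have h7 : 1 * j ≤ q.den * j := Nat.mul_le_mul_right j q.pos
          omega
        exact_mod_cast h5
      have h5 : 1 / ((q : ℝ) ^ k - v) ≤ ((q.den * j : ℕ) : ℝ) ^ k := hj1.trans h4
      rw [div_le_iff₀ hpos] at h5
      linarith
    have h4 : (m : ℝ) + 1 ≤ ((q.num.toNat * j : ℕ) : ℝ) ^ k := by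
      rw [h2]
      nlinarith
    exact_mod_cast h4

end Pool.Agent.Run7.h957.RT
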