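import Pool.Agent.Run7.h987.RT.Iface

/-!
# Project RT (helper987): the pieces THETA and GPV
-/

set_option autoImplicit false

open MeasureTheory Set SchwartzMap
open scoped FourierTransform SchwartzMap ContDiff Pointwise Topology ENNReal

noncomputable section

namespace Pool.Agent.Run7.h957.RT

open Pool.Agent.Run7.h987.BL Pool.Agent.Run7.h987.RT

universe u

theorem t_THETA : P_THETA.{u} := by
  intro X _ _ ε hε
  obtain ⟨t, _, htf, htc⟩ := finite_cover_balls_of_compact (isCompact_univ (X := X))
    (show (0:ℝ) < ε / 4 by positivity)
  set T := htf.toFinset with hT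
  set e := T.equivFin with he
  refine ⟨T.card, fun x i => min 1 (dist x (e.symm i : X) / (2 * ε)), ?_, ?_, ?_⟩
  · intro i
    fun_prop
  · intro x i
    exact ⟨le_min zero_le_one (by positivity), min_le_left _ _⟩
  · intro x y hxy
    obtain ⟨y0, hy0, hxy0⟩ : ∃ y0 ∈ t, dist x y0 < ε / 4 := by
      have := htc (mem_univ x)
      simp only [mem_iUnion, Metric.mem_ball, exists_prop] at this
      exact this
    have hy0T : y0 ∈ T := htf.mem_toFinset.2 hy0
    have h1 := congrFun hxy (e ⟨y0, hy0T⟩)
    simp only [Equiv.symm_apply_apply] at h1
    have h2 : dist x y0 / (2 * ε) < 1 := by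
      rw [div_lt_one (by positivity)]
      linarith
    rw [min_eq_right h2.le] at h1
    have h3 : dist y y0 / (2 * ε) = dist x y0 / (2 * ε) := by
      rcases min_choice 1 (dist y y0 / (2 * ε)) with h | h
      · rw [h] at h1
        exact absurd h1 h2.ne
      · rw [h] at h1
        exact h1.symm
    have h4 : dist y y0 = dist x y0 := by
      field_simp at h3
      exact h3
    have h5 := dist_triangle_right x y y0
    linarith

/-- points outside finitely many proper subspaces -/
lemma exists_near (D : ℕ) (v : Fin D → ℝ) (ε : ℝ) (hε : 0 < ε) (S : Finset (Submodule ℝ (Fin D → ℝ)))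
    (hS : ∀ W ∈ S, W ≠ ⊤) : ∃ x : Fin D → ℝ, ‖x - v‖ < ε ∧ ∀ W ∈ S, x ∉ W := by
  by_contra hcon
  push Not at hcon
  have hsub : Metric.ball v ε ⊆ ⋃ W ∈ S, (W : Set (Fin D → ℝ)) := by
    intro x hx
    rw [mem_ball_iff_norm] at hx
    obtain ⟨W, hW, hxW⟩ := hcon x hx
    exact mem_biUnion hW hxW
  have h0 : volume (⋃ W ∈ S, (W : Set (Fin D → ℝ))) = 0 :=
    (measure_biUnion_null_iff (I := (S : Set (Submodule ℝ (Fin D → ℝ)))) S.countable_toSet).2
      fun W hW => Measure.addHaar_submodule _ W (hS W hW)
  have h1 := measure_mono_null hsub h0
  exact (Metric.measure_ball_pos volume v hε).ne' h1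

theorem t_GPV : P_GPV := by
  classical
  intro D J v ε hε
  have key : ∀ T : Finset (Fin J), ∃ w : Fin J → Fin D → ℝ, (∀ j, ‖w j - v j‖ < ε) ∧
      ∀ s : Finset (Fin J), s ⊆ T → s.card ≤ D → LinearIndepOn ℝ w (s : Set (Fin J)) := by
    intro T
    induction T using Finset.induction_on with
    | empty =>
      refine ⟨v, fun j => by simpa using hε, fun s hs _ => ?_⟩
      rw [Finset.subset_empty.1 hs, Finset.coe_empty]
      exact linearIndepOn_empty ℝ v
    | insert a T haT ih =>
      obtain ⟨w, hw1, hw2⟩ := ih
      set S : Finset (Submodule ℝ (Fin D → ℝ)) := Finset.image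
        (fun s : Finset (Fin J) => Submodule.span ℝ (w '' (s : Set (Fin J))))
        (T.powerset.filter fun s => s.card < D) with hS
      have hStop : ∀ W ∈ S, W ≠ ⊤ := by
        intro W hW
        rw [hS, Finset.mem_image] at hW
        obtain ⟨s, hs, rfl⟩ := hW
        rw [Finset.mem_filter] at hs
        intro htop
        have h1 : Module.finrank ℝ (Submodule.span ℝ (w '' (s : Set (Fin J)))) ≤ s.card := by
          have := finrank_span_finset_le_card (R := ℝ) (s.image w)
          rw [Finset.coe_image] at this
          exact this.trans Finset.card_image_le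
        rw [htop, finrank_top, Module.finrank_fin_fun] at h1
        omega
      obtain ⟨x, hx1, hx2⟩ := exists_near D (v a) ε hε S hStop
      refine ⟨Function.update w a x, fun j => ?_, fun s hs hsD => ?_⟩
      · by_cases hj : j = a
        · subst hj
          rw [Function.update_self]
          exact hx1
        · rw [Function.update_of_ne hj]
          exact hw1 j
      · have hcongr : ∀ s' : Finset (Fin J), a ∉ s' → s' ⊆ T → s'.card ≤ D →
            LinearIndepOn ℝ (Function.update w a x) (s' : Set (Fin J)) := by
          intro s' ha' hs' hD'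
          refine (hw2 s' hs' hD').congr ?_
          intro j hj
          have : j ≠ a := fun h => ha' (h ▸ hj)
          rw [Function.update_of_ne this]
        by_cases ha : a ∈ s
        · have h1 : a ∉ s.erase a := Finset.notMem_erase a s
          have h2 : s.erase a ⊆ T := by
            intro j hj
            rw [Finset.mem_erase] at hj
            exact (Finset.mem_insert.1 (hs hj.2)).resolve_left hj.1
          have h3 : (s.erase a).card + 1 = s.card := Finset.card_erase_add_one ha
          have h4 := hcongr _ h1 h2 (by omega)
          have h5 : (s : Set (Fin J)) = insert a ((s.erase a : Finset (Fin J)) : Set (Fin J)) := by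
            rw [← Finset.coe_insert, Finset.insert_erase ha]
          rw [h5, linearIndepOn_insert (by exact_mod_cast h1)]
          refine ⟨h4, ?_⟩
          rw [Function.update_self]
          have h6 : Function.update w a x '' ((s.erase a : Finset (Fin J)) : Set (Fin J)) =
              w '' ((s.erase a : Finset (Fin J)) : Set (Fin J)) := by
            refine image_congr fun j hj => ?_
            have : j ≠ a := fun h => h1 (h ▸ hj)
            rw [Function.update_of_ne this]
          rw [h6]
          refine hx2 _ ?_
          rw [hS, Finset.mem_image]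
          refine ⟨s.erase a, ?_, rfl⟩
          rw [Finset.mem_filter, Finset.mem_powerset]
          exact ⟨h2, by omega⟩
        · refine hcongr s ha ?_ hsD
          intro j hj
          exact (Finset.mem_insert.1 (hs hj)).resolve_left fun h => ha (h ▸ hj)
  obtain ⟨w, h1, h2⟩ := key Finset.univ
  exact ⟨w, h1, fun s hs => h2 s (Finset.subset_univ _) hs⟩

end Pool.Agent.Run7.h957.RT
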